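import Pool.Agent.H10.FEX.Stmts3

/-!
# FEX, row GFE: the equation `A ^ x + B ^ y = C ^ z`
-/

set_option autoImplicit false

namespace Pool.FEX

open Finset Pool.Agent.H98.ABCR Pool.SHA Pool.FEW

/-- the exponent in `a` of the smallest prime factor of `n` -/
def cdE (n a : ℕ) : ℕ := a.factorization n.minFac

theorem cdE_le (n a L : ℕ) (ha : 0 < a) (haL : a ≤ L) : cdE n a ≤ Nat.log 2 L := by
  by_cases hp : n.minFac.Prime
  · refine Nat.le_log_of_pow_le (by norm_num) ?_
    calc 2 ^ cdE n a ≤ n.minFac ^ cdE n a := Nat.pow_le_pow_left hp.two_le _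
      _ ≤ a := Nat.le_of_dvd ha (Nat.ordProj_dvd a n.minFac)
      _ ≤ L := haL
  · have : cdE n a = 0 := Nat.factorization_eq_zero_of_not_prime a hp
    omega

theorem cdE_inj {n a b x y : ℕ} (hx : 0 < x) (hy : 0 < y) (ha : a ^ x = n)
    (hb : b ^ y = n) (hc : cdE n a = cdE n b) : a = b := by
  by_cases hn1 : n = 1
  · rw [hn1] at ha hb
    have h1 : a = 1 := by
      rcases Nat.pow_eq_one.mp ha with h | h
      · exact h
      · omega
    have h2 : b = 1 := by
      rcases Nat.pow_eq_one.mp hb with h | h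
      · exact h
      · omega
    rw [h1, h2]
  by_cases hn0 : n = 0
  · rw [hn0] at ha hb
    rw [pow_eq_zero_iff hx.ne'] at ha
    rw [pow_eq_zero_iff hy.ne'] at hb
    rw [ha, hb]
  have hq : n.minFac.Prime := Nat.minFac_prime hn1
  have h1 : x * cdE n a = n.factorization n.minFac := by
    rw [← ha]
    simp [cdE, Nat.factorization_pow]
  have h2 : y * cdE n b = n.factorization n.minFac := by
    rw [← hb]
    simp [cdE, Nat.factorization_pow]
  have h3 : 0 < n.factorization n.minFac :=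
    hq.factorization_pos_of_dvd hn0 (Nat.minFac_dvd n)
  have h4 : 0 < cdE n b := by
    rcases Nat.eq_zero_or_pos (cdE n b) with h | h
    · rw [h, mul_zero] at h2
      omega
    · exact h
  have hxy : x = y := by
    rw [hc] at h1
    exact Nat.eq_of_mul_eq_mul_right h4 (h1.trans h2.symm)
  subst hxy
  exact Nat.pow_left_injective (by omega) (ha.trans hb.symm)

theorem gfe_thm (h : S_MA3) : S_GFE := by
  classical
  intro ε hε
  obtain ⟨A, C, c, hA, hC, hc, hM⟩ := h ε hε
  refine ⟨A + 3, 27 * C, by linarith, by linarith, ?_⟩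
  intro X H Y F hX hH hY hF
  have hlog3 : 1 ≤ Real.log 3 := by
    rw [Real.le_log_iff_exp_le (by norm_num)]
    have := Real.exp_one_lt_d9
    linarith
  have hlX : 1 ≤ Real.log X := hlog3.trans (Real.log_le_log (by norm_num) hX)
  have hX0 : (0 : ℝ) < X := by linarith
  have hlXH : Real.log X ≤ Real.log (X * H) := by
    refine Real.log_le_log hX0 ?_
    nlinarith
  have hlXH1 : 1 ≤ Real.log (X * H) := hlX.trans hlXH
  have hex : ∀ w ∈ F, ∃ (v : ℕ × ℕ) (e : ℕ × ℕ × ℕ), 0 < e.1 ∧ 0 < e.2.1 ∧ 0 < e.2.2 ∧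
      v.1 = w.1 ^ e.1 ∧ v.2 = w.2.1 ^ e.2.1 ∧ v.1 + v.2 = w.2.2 ^ e.2.2 ∧
      Real.log ((w.2.2 ^ e.2.2 : ℕ) : ℝ) ≤ H := by
    intro w hw
    obtain ⟨-, -, -, -, -, -, x, y, z, hx, hy, hz, he, hl⟩ := hF w hw
    exact ⟨(w.1 ^ x, w.2.1 ^ y), (x, y, z), hx, hy, hz, rfl, rfl, he, hl⟩
  choose! V E hVE using hex
  set L : ℕ := Nat.log 2 ⌊X⌋₊ with hL
  -- size of the factors
  have hsz : ∀ w ∈ F, w.1 ≤ ⌊X⌋₊ ∧ w.2.1 ≤ ⌊X⌋₊ ∧ w.2.2 ≤ ⌊X⌋₊ := by
    intro w hw
    obtain ⟨h1, h2, h3, -, h5, -⟩ := hF w hw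
    have h6 : w.1 * w.2.1 * w.2.2 ≤ ⌊X⌋₊ := Nat.le_floor h5
    refine ⟨?_, ?_, ?_⟩
    · refine le_trans ?_ h6
      rw [mul_assoc]
      exact Nat.le_mul_of_pos_right _ (Nat.mul_pos h2 h3)
    · refine le_trans ?_ h6
      calc w.2.1 ≤ w.1 * w.2.1 := Nat.le_mul_of_pos_left _ h1
        _ ≤ w.1 * w.2.1 * w.2.2 := Nat.le_mul_of_pos_right _ h3
    · exact le_trans (Nat.le_mul_of_pos_left _ (Nat.mul_pos h1 h2)) h6
  -- fibres
  have hfib : ∀ v ∈ F.image V, (F.filter (fun w => V w = v)).card ≤ (L + 1) ^ 3 := by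
    intro v _
    have hcard : ((range (L + 1)) ×ˢ ((range (L + 1)) ×ˢ (range (L + 1)))).card = (L + 1) ^ 3 := by
      rw [card_product, card_product, card_range]
      ring
    rw [← hcard]
    refine card_le_card_of_injOn (fun w => (cdE v.1 w.1, cdE v.2 w.2.1, cdE (v.1 + v.2) w.2.2))
      ?_ ?_
    · intro w hw
      have hw' := mem_filter.mp hw
      obtain ⟨h1, h2, h3, -⟩ := hF w hw'.1
      obtain ⟨s1, s2, s3⟩ := hsz w hw'.1
      simp only [coe_product, Set.mem_prod, mem_coe, mem_range]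
      exact ⟨Nat.lt_succ_of_le (cdE_le _ _ _ h1 s1), Nat.lt_succ_of_le (cdE_le _ _ _ h2 s2),
        Nat.lt_succ_of_le (cdE_le _ _ _ h3 s3)⟩
    · intro w hw w' hw' hww
      have hw1 := mem_filter.mp hw
      have hw2 := mem_filter.mp hw'
      obtain ⟨p1, p2, p3, q1, q2, q3, -⟩ := hVE w hw1.1
      obtain ⟨p1', p2', p3', q1', q2', q3', -⟩ := hVE w' hw2.1
      rw [hw1.2] at q1 q2 q3
      rw [hw2.2] at q1' q2' q3'
      simp only [Prod.mk.injEq] at hww
      obtain ⟨c1, c2, c3⟩ := hww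
      have e1 := cdE_inj p1 p1' q1.symm q1'.symm c1
      have e2 := cdE_inj p2 p2' q2.symm q2'.symm c2
      have e3 := cdE_inj p3 p3' q3.symm q3'.symm c3
      exact Prod.ext e1 (Prod.ext e2 e3)
  have hcard := card_le_mul_card_image (s := F) (f := V) ((L + 1) ^ 3) hfib
  -- the pairs
  have hMV := hM X H Y 1 0 (F.image V) hX hH hY le_rfl (by
    rw [Nat.cast_one]
    exact Real.one_le_rpow hlX hc.le) (by
    intro v hv
    obtain ⟨w, hw, rfl⟩ := mem_image.mp hv
    obtain ⟨h1, h2, h3, h4, h5, h6, -⟩ := hF w hw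
    obtain ⟨p1, p2, p3, q1, q2, q3, q4⟩ := hVE w hw
    have hcop : Nat.Coprime (V w).1 (V w).2 := by
      rw [q1, q2]
      exact Nat.Coprime.pow _ _ h4
    have h13 : Nat.Coprime w.1 w.2.2 := by
      have : Nat.Coprime (V w).1 ((V w).1 + (V w).2) := by
        rw [Nat.coprime_self_add_right]
        exact hcop
      rw [q3, q1] at this
      exact (Nat.coprime_pow_left_iff p1 _ _).mp ((Nat.coprime_pow_right_iff p3 _ _).mp this)
    have h23 : Nat.Coprime w.2.1 w.2.2 := by
      have : Nat.Coprime (V w).2 ((V w).1 + (V w).2) := by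
        rw [Nat.coprime_add_self_right]
        exact hcop.symm
      rw [q3, q2] at this
      exact (Nat.coprime_pow_left_iff p2 _ _).mp ((Nat.coprime_pow_right_iff p3 _ _).mp this)
    refine ⟨⟨?_, ?_, hcop⟩, ?_, ?_⟩
    · rw [q1]
      exact Nat.pow_pos h1
    · rw [q2]
      exact Nat.pow_pos h2
    · refine ⟨Sum.elim (fun ia => (![w.1, w.2.1, w.2.2] : Fin 3 → ℕ) ia.1) (fun _ => 1),
        Sum.elim (fun ia => (![(E w).1, (E w).2.1, (E w).2.2] : Fin 3 → ℕ) ia.1) (fun _ => 1),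
        Sum.elim (fun ia => ia.1) (fun _ => 0), ?_, ?_, ?_, ?_, ?_, ?_⟩
      · intro i
        rw [prod_filter, Fintype.prod_sum_type, Fintype.prod_prod_type]
        fin_cases i
        · simp [coord, q1]
        · simp [coord, q2]
        · simp [coord, q3]
      · rintro (⟨i, a⟩ | b)
        · right
          fin_cases i
          · exact p1
          · exact p2
          · exact p3
        · exact b.elim0
      · rintro (⟨i, a⟩ | b) (⟨i', a'⟩ | b') hne
        · have ha : a = a' := Subsingleton.elim _ _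
          subst ha
          fin_cases i <;> fin_cases i'
          · exact absurd rfl hne
          · exact h4
          · exact h13
          · exact h4.symm
          · exact absurd rfl hne
          · exact h23
          · exact h13.symm
          · exact h23.symm
          · exact absurd rfl hne
        · exact b'.elim0
        · exact b.elim0
        · exact b.elim0
      · intro b
        exact b.elim0
      · rw [Fintype.prod_sum_type, Fintype.prod_prod_type]
        have h7 : ((w.1 * w.2.1 * w.2.2 : ℕ) : ℝ) ≤ X := h5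
        simp only [Fin.prod_univ_succ, Sum.elim_inl, Sum.elim_inr, Finset.univ_eq_empty,
          Finset.prod_empty, mul_one]
        simpa [mul_assoc] using h7
      · have hpr : ∀ i : Fin 3, (∏ j ∈ univ.filter (fun j : (Fin 3 × Fin 1) ⊕ Fin 0 =>
            (Sum.elim (fun ia => ia.1) (fun _ => 0) : (Fin 3 × Fin 1) ⊕ Fin 0 → Fin 3) j = i),
            (Sum.elim (fun ia => (![w.1, w.2.1, w.2.2] : Fin 3 → ℕ) ia.1) (fun _ => 1) :
              (Fin 3 × Fin 1) ⊕ Fin 0 → ℕ) j) = (![w.1, w.2.1, w.2.2] : Fin 3 → ℕ) i := by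
          intro i
          rw [prod_filter, Fintype.prod_sum_type, Fintype.prod_prod_type]
          fin_cases i
          · simp
          · simp
          · simp
        rcases h6 with h6 | h6 | h6
        · exact ⟨0, by rw [hpr]; exact h6⟩
        · exact ⟨1, by rw [hpr]; exact h6⟩
        · exact ⟨2, by rw [hpr]; exact h6⟩
    · rw [hh, q3]
      exact q4)
  have hL1 : ((L : ℝ) + 1) ≤ 3 * Real.log (X * H) := by
    have hfl : ⌊X⌋₊ ≠ 0 := by
      have : 3 ≤ ⌊X⌋₊ := Nat.le_floor (by exact_mod_cast hX)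
      omega
    have h1 : ((2 ^ L : ℕ) : ℝ) ≤ X :=
      le_trans (by exact_mod_cast Nat.pow_log_le_self 2 hfl) (Nat.floor_le hX0.le)
    have h2 : (L : ℝ) * Real.log 2 ≤ Real.log X := by
      rw [← Real.log_pow]
      refine Real.log_le_log (by positivity) ?_
      exact_mod_cast h1
    have h3 : 0.6931471803 < Real.log 2 := Real.log_two_gt_d9
    have h4 : (L : ℝ) * 0.6931471803 ≤ Real.log X := by
      refine le_trans ?_ h2
      exact mul_le_mul_of_nonneg_left h3.le (Nat.cast_nonneg L)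
    linarith
  have hpos : (0 : ℝ) < Real.log (X * H) := by linarith
  have hL3 : ((L : ℝ) + 1) ^ 3 ≤ 27 * Real.log (X * H) ^ (3 : ℝ) := by
    have : (Real.log (X * H)) ^ (3 : ℝ) = Real.log (X * H) ^ (3 : ℕ) := by
      rw [← Real.rpow_natCast]
      norm_num
    rw [this]
    calc ((L : ℝ) + 1) ^ 3 ≤ (3 * Real.log (X * H)) ^ 3 :=
          pow_le_pow_left₀ (by positivity) hL1 3
      _ = 27 * Real.log (X * H) ^ 3 := by ring
  have hc1 : (F.card : ℝ) ≤ ((L : ℝ) + 1) ^ 3 * ((F.image V).card : ℝ) := by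
    exact_mod_cast hcard
  calc (F.card : ℝ) ≤ ((L : ℝ) + 1) ^ 3 * ((F.image V).card : ℝ) := hc1
    _ ≤ (27 * Real.log (X * H) ^ (3 : ℝ)) * (C * X ^ ε * Real.sqrt (X * Y) *
        Real.log (X * H) ^ (A * (((1 : ℕ) : ℝ) + ((0 : ℕ) : ℝ)))) :=
        mul_le_mul hL3 hMV (Nat.cast_nonneg _) (by positivity)
    _ = 27 * C * X ^ ε * Real.sqrt (X * Y) * Real.log (X * H) ^ (A + 3) := by
        rw [Real.rpow_add hpos]
        push_cast
        rw [add_zero, mul_one]
        ring

end Pool.FEX
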